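import Pool.Agent.H55.TT.Ultra
import Pool.Agent.H75.TT.PinchDefs

/-!
The weight structure on the concrete category and the tensor subcategory of weight zero.
-/

open CategoryTheory MonoidalCategory Filter Pool.Agent.H75.TT

namespace Pool.Agent.H55.TT

/-- The part of weight `m` of a matrix. -/
def wp (n : ℕ) {X Y : Obj} (m : ℤ) (F : Matrix (B n X) (B n Y) ℝ) : Matrix (B n X) (B n Y) ℝ :=
  fun a b => if wt n Y b none - wt n X a none = m then F a b else 0

lemma wp_apply (n : ℕ) {X Y : Obj} (m : ℤ) (F : Matrix (B n X) (B n Y) ℝ) (a : B n X) (b : B n Y) :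
    wp n m F a b = if wt n Y b none - wt n X a none = m then F a b else 0 := rfl

lemma wp_mem (n : ℕ) {X Y : Obj} (m : ℤ) {F : Matrix (B n X) (B n Y) ℝ}
    (hF : F ∈ H False n X Y) : wp n m F ∈ H False n X Y := by
  refine ⟨fun a b h i hi => ?_, fun σ hσ a b => ?_⟩
  · rw [wp_apply] at h
    refine hF.1 a b (fun h0 => h ?_) i hi
    rw [h0, ite_self]
  · have hσ' : σ none = none := by
      by_contra hne
      exact hσ hne
    have h1 : wt n Y (act n σ Y b) none = wt n Y b none := by
      conv_lhs => rw [← hσ']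
      exact wt_act n σ Y b none
    have h2 : wt n X (act n σ X a) none = wt n X a none := by
      conv_lhs => rw [← hσ']
      exact wt_act n σ X a none
    rw [wp_apply, wp_apply, h1, h2, hF.2 σ hσ]

/-- The part of weight `m`. -/
def wH {X Y : Obj} (m : ℤ) (f : X ⟶ Y) : X ⟶ Y :=
  Quotient.liftOn' f (fun F => gm (fun n => wp n m (F n).1) (fun n => wp_mem n m (F n).2)) (by
    intro F F' h1
    have h1' := gm_eq (hF := fun n => (F n).2) (hG := fun n => (F' n).2) |>.1
      (Quotient.sound' h1)
    refine gm_eq.2 (h1'.mono fun n hn => ?_)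
    rw [hn])

lemma wH_gm {X Y : Obj} (m : ℤ) (F : Rw X Y) (hF : ∀ n, F n ∈ H False n X Y) :
    wH m (gm F hF) = gm (fun n => wp n m (F n)) (fun n => wp_mem n m (hF n)) := rfl

/-- The part of weight `m`, as an additive map. -/
def wA {X Y : Obj} (m : ℤ) : (X ⟶ Y) →+ (X ⟶ Y) where
  toFun := wH m
  map_zero' := gm_congr fun n => by
    ext a b
    exact ite_self _
  map_add' f g := by
    obtain ⟨F, h, rfl⟩ := gm_surj f
    obtain ⟨G, h', rfl⟩ := gm_surj g
    refine gm_congr fun n => ?_
    ext a b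
    change (if _ then F n a b + G n a b else 0) = (if _ then F n a b else 0) + (if _ then G n a b else 0)
    split_ifs
    · rfl
    · rw [add_zero]

/-- The morphisms of weight zero invariant under all permutations. -/
def C0S (X Y : Obj) : AddSubgroup (X ⟶ Y) where
  carrier := {f | ∃ (F : Rw X Y) (h : ∀ n, F n ∈ H True n X Y),
    f = gm F fun n => H_mono (fun h => h.elim) (h n)}
  zero_mem' := ⟨fun _ => 0, fun _ => Submodule.zero_mem _, rfl⟩
  add_mem' := by
    rintro _ _ ⟨F, h, rfl⟩ ⟨F', h', rfl⟩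
    exact ⟨fun n => F n + F' n, fun n => Submodule.add_mem _ (h n) (h' n), rfl⟩
  neg_mem' := by
    rintro _ ⟨F, h, rfl⟩
    exact ⟨fun n => - F n, fun n => Submodule.neg_mem _ (h n), rfl⟩

lemma gm_mem_C0S {X Y : Obj} {F : Rw X Y} (h : ∀ n, F n ∈ H True n X Y)
    (h' : ∀ n, F n ∈ H False n X Y) : gm F h' ∈ C0S X Y := ⟨F, h, rfl⟩

lemma hm_mem_C0S {X Y : Obj} (p : PE X Y) : p.hm ∈ C0S X Y :=
  ⟨fun n => pm (p.e n), fun n => pm_mem _ (p.wt_eq n) (p.act_eq n), rfl⟩

lemma C0S_smul {X Y : Obj} (c : Hyperreal) {f : X ⟶ Y} (hf : f ∈ C0S X Y) : c • f ∈ C0S X Y := by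
  obtain ⟨F, h, rfl⟩ := hf
  obtain ⟨c, rfl⟩ := hr_surj c
  exact ⟨fun n => c n • F n, fun n => Submodule.smul_mem _ _ (h n), rfl⟩

/-- The coevaluation matrix. -/
def coevM (n : ℕ) (X : Obj) : Matrix (B n .unit) (B n (.tens X (dual X))) ℝ :=
  fun _ b => if b.1 = dl n X b.2 then 1 else 0

/-- The evaluation matrix. -/
def evM (n : ℕ) (X : Obj) : Matrix (B n (.tens (dual X) X)) (B n .unit) ℝ :=
  fun b _ => if b.2 = dl n X b.1 then 1 else 0

lemma coevM_mem (s : Prop) (n : ℕ) (X : Obj) : coevM n X ∈ H s n .unit (.tens X (dual X)) := by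
  refine ⟨fun a b h i _ => ?_, fun σ _ a b => ?_⟩
  · have hb : b.1 = dl n X b.2 := by
      by_contra hne
      exact h (if_neg hne)
    change (0 : ℤ) = wt n X b.1 i + wt n (dual X) b.2 i
    rw [hb, wt_dl, Pi.neg_apply, neg_add_cancel]
  · change (if act n σ X b.1 = dl n X (act n σ (dual X) b.2) then (1 : ℝ) else 0) =
      if b.1 = dl n X b.2 then 1 else 0
    rw [act_dl]
    by_cases h : b.1 = dl n X b.2
    · rw [if_pos h, if_pos (congrArg _ h)]
    · rw [if_neg h, if_neg (fun h' => h ((act n σ X).injective h'))]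

lemma evM_mem (s : Prop) (n : ℕ) (X : Obj) : evM n X ∈ H s n (.tens (dual X) X) .unit := by
  refine ⟨fun b a h i _ => ?_, fun σ _ b a => ?_⟩
  · have hb : b.2 = dl n X b.1 := by
      by_contra hne
      exact h (if_neg hne)
    change wt n (dual X) b.1 i + wt n X b.2 i = (0 : ℤ)
    rw [hb, wt_dl, Pi.neg_apply, add_neg_cancel]
  · change (if act n σ X b.2 = dl n X (act n σ (dual X) b.1) then (1 : ℝ) else 0) =
      if b.2 = dl n X b.1 then 1 else 0
    rw [act_dl]
    by_cases h : b.2 = dl n X b.1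
    · rw [if_pos h, if_pos (congrArg _ h)]
    · rw [if_neg h, if_neg (fun h' => h ((act n σ X).injective h'))]

/-- Coevaluation. -/
noncomputable def coevH (X : Obj) : 𝟙_ Obj ⟶ X ⊗ dual X := gm (fun n => coevM n X) fun n => coevM_mem _ n X

/-- Evaluation. -/
noncomputable def evH (X : Obj) : dual X ⊗ X ⟶ 𝟙_ Obj := gm (fun n => evM n X) fun n => evM_mem _ n X

lemma pm_mul_apply {α β γ : Type} [Fintype β] [DecidableEq β] (e : α ≃ β) (F : Matrix β γ ℝ)
    (a : α) (c : γ) : (pm e * F) a c = F (e a) c := by rw [pm_mul]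

lemma mul_apply_kr {α β γ δ : Type} [Fintype β] [Fintype γ] (F : Matrix α (β × γ) ℝ)
    (G : Matrix (β × γ) δ ℝ) (a : α) (d : δ) :
    (F * G) a d = ∑ b, ∑ c, F a (b, c) * G (b, c) d := by
  rw [Matrix.mul_apply, Fintype.sum_prod_type]

section zigzag

variable {α α' : Type} [Fintype α] [Fintype α'] [DecidableEq α] [DecidableEq α'] (d : α' ≃ α)

/-- First zigzag at the level of matrices: `α'` is the dual basis. -/
lemma zig1 : kr (1 : Matrix α' α' ℝ) (fun (_ : Unit) (b : α × α') => if b.1 = d b.2 then (1 : ℝ) else 0) *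
    (pm (Equiv.prodAssoc α' α α').symm *
      kr (fun (b : α' × α) (_ : Unit) => if b.2 = d b.1 then (1 : ℝ) else 0) (1 : Matrix α' α' ℝ)) =
    pm (Equiv.prodPUnit α') * pm (Equiv.punitProd α').symm := by
  ext ⟨y, u⟩ ⟨v, z⟩
  rw [pm_mul_apply, Matrix.mul_apply, Fintype.sum_prod_type]
  simp only [Fintype.sum_prod_type, pm_mul_apply, kr_apply, Matrix.one_apply, pm_apply]
  simp only [Equiv.prodAssoc_symm_apply, Equiv.prodPUnit_apply, Equiv.punitProd_symm_apply]
  simp

/-- Second zigzag. -/
lemma zig2 : kr (fun (_ : Unit) (b : α × α') => if b.1 = d b.2 then (1 : ℝ) else 0)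
      (1 : Matrix α α ℝ) *
    (pm (Equiv.prodAssoc α α' α) *
      kr (1 : Matrix α α ℝ) (fun (b : α' × α) (_ : Unit) => if b.2 = d b.1 then (1 : ℝ) else 0)) =
    pm (Equiv.punitProd α) * pm (Equiv.prodPUnit α).symm := by
  ext ⟨u, y⟩ ⟨z, v⟩
  rw [pm_mul_apply, Matrix.mul_apply, Fintype.sum_prod_type]
  simp only [Fintype.sum_prod_type, pm_mul_apply, kr_apply, Matrix.one_apply, pm_apply]
  simp only [Equiv.prodAssoc_apply, Equiv.punitProd_apply, Equiv.prodPUnit_symm_apply]
  have key := Equiv.sum_comp d (fun w => if y = w then if z = w then (1 : ℝ) else 0 else 0)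
  have key2 : ∑ w, (if y = w then if z = w then (1 : ℝ) else 0 else 0) = if y = z then 1 else 0 := by
    rw [Finset.sum_ite_eq, if_pos (Finset.mem_univ _)]
    by_cases h : y = z
    · rw [if_pos h, if_pos h.symm]
    · rw [if_neg h, if_neg (Ne.symm h)]
  rw [key2] at key
  simpa using key

end zigzag

/-- The exact pairing between `X` and its dual. -/
noncomputable def pairing (X : Obj) : ExactPairing X (dual X) where
  coevaluation' := coevH X
  evaluation' := evH X
  coevaluation_evaluation' := gm_congr fun n => zig1 (dl n X)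
  evaluation_coevaluation' := gm_congr fun n => zig2 (dl n X)

/-- The tensor subcategory of weight zero. -/
noncomputable def C0 : TensorSub Obj where
  S := C0S
  id_mem X := by
    rw [← PE.hm_rfl]
    exact hm_mem_C0S _
  comp_mem := by
    rintro X Y Z _ _ ⟨F, h, rfl⟩ ⟨F', h', rfl⟩
    exact ⟨fun n => F n * F' n, fun n => mul_mem (h n) (h' n), rfl⟩
  tensor_mem := by
    rintro X Y Z W _ _ ⟨F, h, rfl⟩ ⟨F', h', rfl⟩
    exact ⟨fun n => kr (F n) (F' n), fun n => kr_mem (h n) (h' n), rfl⟩
  assoc_hom_mem X Y Z := hm_mem_C0S _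
  assoc_inv_mem X Y Z := hm_mem_C0S _
  left_hom_mem X := hm_mem_C0S _
  left_inv_mem X := hm_mem_C0S _
  right_hom_mem X := hm_mem_C0S _
  right_inv_mem X := hm_mem_C0S _
  braid_hom_mem X Y := hm_mem_C0S _
  braid_inv_mem X Y := hm_mem_C0S _
  dual_mem X := ⟨dual X, pairing X, ⟨fun n => coevM n X, fun n => coevM_mem _ n X, rfl⟩,
    ⟨fun n => evM n X, fun n => evM_mem _ n X, rfl⟩⟩

/-- The weight structure. -/
noncomputable def pinch : Pinch Obj where
  w m := wA m
  w_w := by
    intro X Y m m' f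
    obtain ⟨F, h, rfl⟩ := gm_surj f
    split_ifs with hm
    · subst hm
      refine gm_congr fun n => ?_
      ext a b
      change wp n m (wp n m (F n)) a b = wp n m (F n) a b
      rw [wp_apply, wp_apply]
      split_ifs <;> rfl
    · refine gm_congr fun n => ?_
      ext a b
      change wp n m (wp n m' (F n)) a b = 0
      rw [wp_apply, wp_apply]
      split_ifs with h1 h2
      · exact absurd (h1.symm.trans h2) hm
      · rfl
      · rfl
  bd X Y := size X + size Y
  w_bd := by
    intro X Y m f hm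
    obtain ⟨F, h, rfl⟩ := gm_surj f
    refine gm_congr fun n => ?_
    ext a b
    change wp n m (F n) a b = 0
    rw [wp_apply, if_neg]
    intro h
    have h1 := abs_wt_le n X a none
    have h2 := abs_wt_le n Y b none
    rw [← h] at hm
    have h3 := abs_sub (wt n Y b none) (wt n X a none)
    push_cast at hm
    omega
  sum_w := by
    intro X Y f
    obtain ⟨F, h, rfl⟩ := gm_surj f
    have key : ∀ s : Finset ℤ, ∑ m ∈ s, wA m (gm F h) = gm (fun n => ∑ m ∈ s, wp n m (F n))
        (fun n => Submodule.sum_mem _ fun m _ => wp_mem n m (h n)) := by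
      intro s
      classical
      induction s using Finset.induction_on with
      | empty => rfl
      | insert m s hm ih =>
        rw [Finset.sum_insert hm, ih]
        refine gm_congr fun n => ?_
        rw [Finset.sum_insert hm]
    refine (key _).trans (gm_congr fun n => ?_)
    ext a b
    rw [Matrix.sum_apply]
    simp only [wp_apply]
    rw [Finset.sum_ite_eq, if_pos]
    rw [Finset.mem_Icc]
    have h1 := abs_wt_le n X a none
    have h2 := abs_wt_le n Y b none
    rw [abs_le] at h1 h2
    push_cast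
    constructor <;> omega
  w_comp := by
    intro X Y Z p q f g
    obtain ⟨F, h, rfl⟩ := gm_surj f
    obtain ⟨G, h', rfl⟩ := gm_surj g
    refine gm_congr fun n => ?_
    ext a c
    change wp n (p + q) (wp n p (F n) * wp n q (G n)) a c = (wp n p (F n) * wp n q (G n)) a c
    rw [wp_apply]
    split_ifs with hac
    · rfl
    · symm
      rw [Matrix.mul_apply]
      refine Finset.sum_eq_zero fun b _ => ?_
      rw [wp_apply, wp_apply]
      split_ifs with h1 h2
      · exact absurd (by rw [← h1, ← h2]; ring) hac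
      · exact mul_zero _
      · exact zero_mul _
      · exact zero_mul _
  w_tensor := by
    intro X Y X' Y' p q f g
    obtain ⟨F, h, rfl⟩ := gm_surj f
    obtain ⟨G, h', rfl⟩ := gm_surj g
    refine gm_congr fun n => ?_
    ext a c
    change wp n (X := .tens X X') (Y := .tens Y Y') (p + q)
      (kr (wp n p (F n)) (wp n q (G n))) a c = kr (wp n p (F n)) (wp n q (G n)) a c
    rw [wp_apply]
    split_ifs with hac
    · rfl
    · symm
      rw [kr_apply, wp_apply, wp_apply]
      split_ifs with h1 h2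
      · refine absurd ?_ hac
        change (wt n Y c.1 none + wt n Y' c.2 none) - (wt n X a.1 none + wt n X' a.2 none) = p + q
        rw [← h1, ← h2]; ring
      · exact mul_zero _
      · exact zero_mul _
      · exact zero_mul _
  C0 := C0
  C0_w := by
    rintro X Y _ ⟨F, h, rfl⟩
    refine gm_congr fun n => ?_
    ext a b
    change wp n 0 (F n) a b = F n a b
    rw [wp_apply]
    split_ifs with hab
    · rfl
    · by_contra hne
      exact hab (sub_eq_zero.2 ((h n).1 a b (fun h0 => hne h0.symm) none (fun _ => trivial)).symm)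

end Pool.Agent.H55.TT
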