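import Mathlib

/-!
Level `n` of the concrete category: permutation-invariant matrices preserving weights.
-/

namespace Pool.Agent.H55.TT

/-- Objects: formal tensor products of generators `gen w`, `w : ℤ`. -/
inductive Obj : Type
  | unit : Obj
  | gen : ℤ → Obj
  | tens : Obj → Obj → Obj

/-- The basis of an object at level `n`. -/
def B (n : ℕ) : Obj → Type
  | .unit => Unit
  | .gen _ => Option (Fin n)
  | .tens X Y => B n X × B n Y

instance instFintypeB (n : ℕ) : ∀ X : Obj, Fintype (B n X)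
  | .unit => inferInstanceAs (Fintype Unit)
  | .gen _ => inferInstanceAs (Fintype (Option (Fin n)))
  | .tens X Y => @instFintypeProd (B n X) (B n Y) (instFintypeB n X) (instFintypeB n Y)

instance instDecEqB (n : ℕ) : ∀ X : Obj, DecidableEq (B n X)
  | .unit => inferInstanceAs (DecidableEq Unit)
  | .gen _ => inferInstanceAs (DecidableEq (Option (Fin n)))
  | .tens X Y => @instDecidableEqProd (B n X) (B n Y) (instDecEqB n X) (instDecEqB n Y)

/-- The weight of a basis vector. -/
def wt (n : ℕ) : ∀ X : Obj, B n X → Option (Fin n) → ℤ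
  | .unit, _ => 0
  | .gen w, i => Pi.single (M := fun _ => ℤ) i w
  | .tens X Y, b => wt n X b.1 + wt n Y b.2

/-- The action of the permutations of `Option (Fin n)` on the basis vectors. -/
def act (n : ℕ) (σ : Equiv.Perm (Option (Fin n))) : ∀ X : Obj, Equiv.Perm (B n X)
  | .unit => Equiv.refl Unit
  | .gen _ => σ
  | .tens X Y => Equiv.prodCongr (act n σ X) (act n σ Y)

/-- The number of generators in `X`. -/
def leaves : Obj → ℕ
  | .unit => 0
  | .gen _ => 1
  | .tens X Y => leaves X + leaves Y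

/-- The sum of the absolute values of the weights in `X`. -/
def size : Obj → ℕ
  | .unit => 0
  | .gen w => w.natAbs
  | .tens X Y => size X + size Y

/-- The dual object. -/
def dual : Obj → Obj
  | .unit => .unit
  | .gen w => .gen (-w)
  | .tens X Y => .tens (dual X) (dual Y)

/-- The basis of the dual object. -/
def dl (n : ℕ) : ∀ X : Obj, B n (dual X) ≃ B n X
  | .unit => Equiv.refl Unit
  | .gen _ => Equiv.refl (Option (Fin n))
  | .tens X Y => Equiv.prodCongr (dl n X) (dl n Y)

lemma wt_act (n : ℕ) (σ : Equiv.Perm (Option (Fin n))) :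
    ∀ (X : Obj) (b : B n X) (i : Option (Fin n)), wt n X (act n σ X b) (σ i) = wt n X b i
  | .unit, _, _ => rfl
  | .gen w, b, i => by
      change (Pi.single (M := fun _ => ℤ) (σ b) w : Option (Fin n) → ℤ) (σ i) =
        (Pi.single (M := fun _ => ℤ) b w : Option (Fin n) → ℤ) i
      by_cases h : i = b
      · subst h; simp
      · rw [Pi.single_eq_of_ne h, Pi.single_eq_of_ne (fun h' => h (σ.injective h'))]
  | .tens X Y, b, i => by
      change wt n X (act n σ X b.1) (σ i) + wt n Y (act n σ Y b.2) (σ i) =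
        wt n X b.1 i + wt n Y b.2 i
      rw [wt_act n σ X, wt_act n σ Y]

lemma card_wt_le (n : ℕ) : ∀ (X : Obj) (b : B n X),
    (Finset.univ.filter fun i => wt n X b i ≠ 0).card ≤ leaves X
  | .unit, _ => by
      have : (Finset.univ.filter fun i : Option (Fin n) => wt n .unit () i ≠ 0) = ∅ := by
        ext i; simp [wt]
      exact (congrArg Finset.card this).le
  | .gen w, b => by
      refine Finset.card_le_one.2 fun i hi j hj => ?_
      have key : ∀ i : Option (Fin n), wt n (.gen w) b i ≠ 0 → i = b := by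
        intro i hi
        by_contra h
        apply hi
        change (Pi.single (M := fun _ => ℤ) b w : Option (Fin n) → ℤ) i = 0
        exact Pi.single_eq_of_ne h _
      rw [key i (Finset.mem_filter.1 hi).2, key j (Finset.mem_filter.1 hj).2]
  | .tens X Y, b => by
      have h : (Finset.univ.filter fun i : Option (Fin n) => wt n (.tens X Y) b i ≠ 0) ⊆
          (Finset.univ.filter fun i => wt n X b.1 i ≠ 0) ∪
          (Finset.univ.filter fun i => wt n Y b.2 i ≠ 0) := by
        intro i hi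
        rw [Finset.mem_filter] at hi
        rw [Finset.mem_union, Finset.mem_filter, Finset.mem_filter]
        by_contra hc
        simp only [Finset.mem_univ, true_and, not_or, not_not] at hc
        apply hi.2
        change wt n X b.1 i + wt n Y b.2 i = 0
        rw [hc.1, hc.2, add_zero]
      refine (Finset.card_le_card h).trans ((Finset.card_union_le _ _).trans ?_)
      exact Nat.add_le_add (card_wt_le n X b.1) (card_wt_le n Y b.2)

lemma abs_wt_le (n : ℕ) : ∀ (X : Obj) (b : B n X) (i : Option (Fin n)),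
    |wt n X b i| ≤ (size X : ℤ)
  | .unit, _, i => by simp [wt, size]
  | .gen w, b, i => by
      change |(Pi.single (M := fun _ => ℤ) b w : Option (Fin n) → ℤ) i| ≤ ((w.natAbs : ℕ) : ℤ)
      by_cases h : i = b
      · subst h; simp
      · rw [Pi.single_eq_of_ne h]; simp
  | .tens X Y, b, i => by
      change |wt n X b.1 i + wt n Y b.2 i| ≤ ((size X + size Y : ℕ) : ℤ)
      push_cast
      exact (abs_add_le _ _).trans (add_le_add (abs_wt_le n X b.1 i) (abs_wt_le n Y b.2 i))

lemma wt_dl (n : ℕ) : ∀ (X : Obj) (b : B n (dual X)), wt n X (dl n X b) = - wt n (dual X) b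
  | .unit, _ => by funext i; exact (neg_zero (G := ℤ)).symm
  | .gen w, b => by
      change Pi.single (M := fun _ => ℤ) b w = - Pi.single (M := fun _ => ℤ) b (-w)
      rw [← Pi.single_neg, neg_neg]
  | .tens X Y, b => by
      change wt n X (dl n X b.1) + wt n Y (dl n Y b.2) =
        - (wt n (dual X) b.1 + wt n (dual Y) b.2)
      rw [wt_dl n X, wt_dl n Y, neg_add]

lemma act_dl (n : ℕ) (σ : Equiv.Perm (Option (Fin n))) : ∀ (X : Obj) (b : B n (dual X)),
    dl n X (act n σ (dual X) b) = act n σ X (dl n X b)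
  | .unit, _ => rfl
  | .gen _, _ => rfl
  | .tens X Y, b => Prod.ext (act_dl n σ X b.1) (act_dl n σ Y b.2)

/-- The invariant matrices preserving weights: `s = False`: permutations fixing `none`, and weights
outside `none`; `s = True`: all permutations and all weights. -/
def H (s : Prop) (n : ℕ) (X Y : Obj) : Submodule ℝ (Matrix (B n X) (B n Y) ℝ) where
  carrier := {F | (∀ a b, F a b ≠ 0 → ∀ i, (i = none → s) → wt n X a i = wt n Y b i) ∧
    ∀ σ : Equiv.Perm (Option (Fin n)), (σ none ≠ none → s) →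
      ∀ a b, F (act n σ X a) (act n σ Y b) = F a b}
  zero_mem' := ⟨fun a b h => absurd rfl h, fun _ _ _ _ => rfl⟩
  add_mem' := by
    rintro F G ⟨h1, h2⟩ ⟨h3, h4⟩
    refine ⟨fun a b h => ?_, fun σ hσ a b => ?_⟩
    · by_cases hF : F a b = 0
      · refine h3 a b fun hG => h ?_
        rw [Matrix.add_apply, hF, hG, add_zero]
      · exact h1 a b hF
    · rw [Matrix.add_apply, Matrix.add_apply, h2 σ hσ, h4 σ hσ]
  smul_mem' := by
    rintro c F ⟨h1, h2⟩
    refine ⟨fun a b h => h1 a b fun h0 => h ?_, fun σ hσ a b => ?_⟩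
    · rw [Matrix.smul_apply, h0, smul_zero]
    · rw [Matrix.smul_apply, Matrix.smul_apply, h2 σ hσ]

lemma mem_H {s : Prop} {n : ℕ} {X Y : Obj} {F : Matrix (B n X) (B n Y) ℝ} : F ∈ H s n X Y ↔
    (∀ a b, F a b ≠ 0 → ∀ i, (i = none → s) → wt n X a i = wt n Y b i) ∧
    ∀ σ : Equiv.Perm (Option (Fin n)), (σ none ≠ none → s) →
      ∀ a b, F (act n σ X a) (act n σ Y b) = F a b := Iff.rfl

lemma H_mono {s t : Prop} (h : s → t) {n : ℕ} {X Y : Obj} : H t n X Y ≤ H s n X Y :=
  fun _ hF => ⟨fun a b hab i hi => hF.1 a b hab i fun h' => h (hi h'),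
    fun σ hσ => hF.2 σ fun h' => h (hσ h')⟩

lemma mul_mem {s : Prop} {n : ℕ} {X Y Z : Obj} {F : Matrix (B n X) (B n Y) ℝ}
    {G : Matrix (B n Y) (B n Z) ℝ} (hF : F ∈ H s n X Y) (hG : G ∈ H s n Y Z) :
    F * G ∈ H s n X Z := by
  refine ⟨fun a c h i hi => ?_, fun σ hσ a c => ?_⟩
  · rw [Matrix.mul_apply] at h
    obtain ⟨b, _, hb⟩ := Finset.exists_ne_zero_of_sum_ne_zero h
    rw [hF.1 a b (left_ne_zero_of_mul hb) i hi, hG.1 b c (right_ne_zero_of_mul hb) i hi]
  · rw [Matrix.mul_apply, Matrix.mul_apply]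
    rw [← Equiv.sum_comp (act n σ Y)]
    refine Finset.sum_congr rfl fun b _ => ?_
    rw [hF.2 σ hσ, hG.2 σ hσ]

/-- The Kronecker product. -/
def kr {α β γ δ : Type} (F : Matrix α β ℝ) (G : Matrix γ δ ℝ) : Matrix (α × γ) (β × δ) ℝ :=
  fun a b => F a.1 b.1 * G a.2 b.2

lemma kr_apply {α β γ δ : Type} (F : Matrix α β ℝ) (G : Matrix γ δ ℝ) (a : α × γ) (b : β × δ) :
    kr F G a b = F a.1 b.1 * G a.2 b.2 := rfl

lemma kr_mem {s : Prop} {n : ℕ} {X Y X' Y' : Obj} {F : Matrix (B n X) (B n Y) ℝ}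
    {G : Matrix (B n X') (B n Y') ℝ} (hF : F ∈ H s n X Y) (hG : G ∈ H s n X' Y') :
    (kr F G : Matrix (B n (.tens X X')) (B n (.tens Y Y')) ℝ) ∈ H s n (.tens X X') (.tens Y Y') := by
  refine ⟨fun a c h i hi => ?_, fun σ hσ a c => ?_⟩
  · have h' : F a.1 c.1 * G a.2 c.2 ≠ 0 := h
    change wt n X a.1 i + wt n X' a.2 i = wt n Y c.1 i + wt n Y' c.2 i
    rw [hF.1 _ _ (left_ne_zero_of_mul h') i hi, hG.1 _ _ (right_ne_zero_of_mul h') i hi]
  · change F (act n σ X a.1) (act n σ Y c.1) * G (act n σ X' a.2) (act n σ Y' c.2) =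
      F a.1 c.1 * G a.2 c.2
    rw [hF.2 σ hσ, hG.2 σ hσ]

/-- The matrix of a bijection. -/
def pm {α β : Type} [DecidableEq β] (e : α ≃ β) : Matrix α β ℝ := fun a b => if e a = b then 1 else 0

lemma pm_apply {α β : Type} [DecidableEq β] (e : α ≃ β) (a : α) (b : β) :
    pm e a b = if e a = b then 1 else 0 := rfl

lemma pm_mem {s : Prop} {n : ℕ} {X Y : Obj} (e : B n X ≃ B n Y)
    (h1 : ∀ a, wt n Y (e a) = wt n X a)
    (h2 : ∀ (σ : Equiv.Perm (Option (Fin n))) (a), e (act n σ X a) = act n σ Y (e a)) :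
    pm e ∈ H s n X Y := by
  refine ⟨fun a b h i _ => ?_, fun σ _ a b => ?_⟩
  · rw [pm_apply] at h
    have : e a = b := by
      by_contra hne
      exact h (if_neg hne)
    rw [← this, h1]
  · rw [pm_apply, pm_apply, h2]
    by_cases h : e a = b
    · rw [if_pos h, if_pos (congrArg _ h)]
    · rw [if_neg h, if_neg (fun h' => h ((act n σ Y).injective h'))]

section mat

variable {α β γ δ α' β' γ' : Type}

lemma pm_refl [DecidableEq α] : pm (Equiv.refl α) = (1 : Matrix α α ℝ) := by
  ext a b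
  rw [pm_apply, Matrix.one_apply]; rfl

lemma pm_mul [Fintype β] [DecidableEq β] (e : α ≃ β) (F : Matrix β γ ℝ) : pm e * F = fun a c => F (e a) c := by
  ext a c
  rw [Matrix.mul_apply]
  simp [pm_apply]

lemma mul_pm [Fintype β] [DecidableEq γ] (e : β ≃ γ) (F : Matrix α β ℝ) : F * pm e = fun a c => F a (e.symm c) := by
  ext a c
  rw [Matrix.mul_apply]
  rw [Finset.sum_eq_single (e.symm c)]
  · rw [pm_apply, if_pos (e.apply_symm_apply c), mul_one]
  · intro b _ hb
    rw [pm_apply, if_neg (fun h => hb (by rw [← h, e.symm_apply_apply])), mul_zero]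
  · intro h; exact absurd (Finset.mem_univ _) h

lemma pm_trans [Fintype β] [DecidableEq β] [DecidableEq γ] (e : α ≃ β) (f : β ≃ γ) : pm e * pm f = pm (e.trans f) := by
  rw [pm_mul]; rfl

lemma kr_pm [DecidableEq β] [DecidableEq δ] (e : α ≃ β) (f : γ ≃ δ) : kr (pm e) (pm f) = pm (Equiv.prodCongr e f) := by
  ext a b
  rw [kr_apply, pm_apply, pm_apply, pm_apply]
  have : (Equiv.prodCongr e f) a = b ↔ e a.1 = b.1 ∧ f a.2 = b.2 := Prod.ext_iff
  by_cases h1 : e a.1 = b.1
  · by_cases h2 : f a.2 = b.2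
    · rw [if_pos h1, if_pos h2, if_pos (this.2 ⟨h1, h2⟩), mul_one]
    · rw [if_neg h2, if_neg (fun h => h2 (this.1 h).2), mul_zero]
  · rw [if_neg h1, if_neg (fun h => h1 (this.1 h).1), zero_mul]

lemma kr_one_one [DecidableEq α] [DecidableEq β] : kr (1 : Matrix α α ℝ) (1 : Matrix β β ℝ) = 1 := by
  rw [← pm_refl, ← pm_refl, kr_pm, ← pm_refl]
  rfl

lemma kr_mul [Fintype β] [Fintype β'] (F : Matrix α β ℝ) (G : Matrix β γ ℝ) (F' : Matrix α' β' ℝ) (G' : Matrix β' γ' ℝ) :
    kr (F * G) (F' * G') = kr F F' * kr G G' := by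
  ext a c
  rw [kr_apply, Matrix.mul_apply, Matrix.mul_apply, Matrix.mul_apply, Fintype.sum_prod_type,
    Finset.sum_mul_sum]
  refine Finset.sum_congr rfl fun b _ => Finset.sum_congr rfl fun b' _ => ?_
  rw [kr_apply, kr_apply]
  ring

end mat

end Pool.Agent.H55.TT
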