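import Pool.Agent.H55.TT.PinchC

/-!
Perfect pairings: dual bases of the invariant vectors and covectors.
-/

open CategoryTheory MonoidalCategory Filter Pool.Agent.H75.TT

namespace Pool.Agent.H55.TT

/-- The positions of the generators in an object. -/
def Lf : Obj → Type
  | .unit => Empty
  | .gen _ => Unit
  | .tens X Y => Lf X ⊕ Lf Y

instance instFintypeLf : ∀ X : Obj, Fintype (Lf X)
  | .unit => inferInstanceAs (Fintype Empty)
  | .gen _ => inferInstanceAs (Fintype Unit)
  | .tens X Y => @instFintypeSum (Lf X) (Lf Y) (instFintypeLf X) (instFintypeLf Y)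

/-- The index at a position. -/
def lf (n : ℕ) : ∀ X : Obj, B n X → Lf X → Option (Fin n)
  | .unit, _ => fun _ => none
  | .gen _, i => fun _ => i
  | .tens X Y, b => Sum.elim (lf n X b.1) (lf n Y b.2)

lemma lf_act (n : ℕ) (σ : Equiv.Perm (Option (Fin n))) : ∀ (X : Obj) (b : B n X) (l : Lf X),
    lf n X (act n σ X b) l = σ (lf n X b l)
  | .unit, _, l => l.elim
  | .gen _, _, _ => rfl
  | .tens X _, b, .inl l => lf_act n σ X b.1 l
  | .tens _ Y, b, .inr l => lf_act n σ Y b.2 l

lemma lf_inj (n : ℕ) : ∀ (X : Obj) (b b' : B n X), (∀ l, lf n X b l = lf n X b' l) → b = b'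
  | .unit, _, _, _ => rfl
  | .gen _, _, _, h => h ()
  | .tens X Y, b, b', h => Prod.ext (lf_inj n X b.1 b'.1 fun l => h (.inl l))
      (lf_inj n Y b.2 b'.2 fun l => h (.inr l))

/-- Two families with the same kernel are conjugate under a permutation. -/
lemma exists_perm {J Ω : Type} [Fintype Ω] (g g' : J → Ω) (h : ∀ i j, g i = g j ↔ g' i = g' j) :
    ∃ σ : Equiv.Perm Ω, ∀ i, σ (g i) = g' i := by
  classical
  have hk : ∀ i, g' (Classical.choose (⟨i, rfl⟩ : g i ∈ Set.range g)) = g' i := fun i =>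
    (h _ _).1 (Classical.choose_spec (⟨i, rfl⟩ : g i ∈ Set.range g))
  have hk' : ∀ i, g (Classical.choose (⟨i, rfl⟩ : g' i ∈ Set.range g')) = g i := fun i =>
    (h _ _).2 (Classical.choose_spec (⟨i, rfl⟩ : g' i ∈ Set.range g'))
  let e : {x // x ∈ Set.range g} ≃ {x // x ∈ Set.range g'} :=
    { toFun := fun x => ⟨g' (Classical.choose x.2), ⟨_, rfl⟩⟩
      invFun := fun x => ⟨g (Classical.choose x.2), ⟨_, rfl⟩⟩
      left_inv := by
        rintro ⟨x, i, rfl⟩
        apply Subtype.ext
        have h1 : g' (Classical.choose (⟨i, rfl⟩ : g i ∈ Set.range g)) = g' i := hk i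
        change g (Classical.choose _) = g i
        have h2 := hk' (Classical.choose (⟨i, rfl⟩ : g i ∈ Set.range g))
        rw [h2]
        exact Classical.choose_spec (⟨i, rfl⟩ : g i ∈ Set.range g)
      right_inv := by
        rintro ⟨x, i, rfl⟩
        apply Subtype.ext
        change g' (Classical.choose _) = g' i
        have h2 := hk (Classical.choose (⟨i, rfl⟩ : g' i ∈ Set.range g'))
        rw [h2]
        exact Classical.choose_spec (⟨i, rfl⟩ : g' i ∈ Set.range g') }
  refine ⟨e.extendSubtype, fun i => ?_⟩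
  rw [Equiv.extendSubtype_apply_of_mem e (g i) ⟨i, rfl⟩]
  exact hk i

/-- The pattern type. -/
abbrev Pt (X : Obj) : Type := Option (Lf X) → Option (Lf X) → Bool

noncomputable instance instFintypePt (X : Obj) : Fintype (Pt X) := by
  classical
  exact inferInstance

lemma sum_unitB (n : ℕ) (f : B n .unit → ℝ) : ∑ j, f j = f () :=
  Fintype.sum_unique (ι := Unit) (M := ℝ) f

/-- The extended family of indices: `none` is added if `s` is false; if `s` is true the value at
`none` is not used. -/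
def ex (n : ℕ) (X : Obj) (b : B n X) : Option (Lf X) → Option (Fin n)
  | none => none
  | some l => lf n X b l

open scoped Classical in
/-- The pattern of a basis vector. -/
noncomputable def pat (s : Prop) (n : ℕ) (X : Obj) (b : B n X) : Pt X := fun i j =>
  decide ((i = none → ¬ s) ∧ (j = none → ¬ s) ∧ ex n X b i = ex n X b j)

lemma pat_act (s : Prop) (n : ℕ) (X : Obj) (σ : Equiv.Perm (Option (Fin n)))
    (hσ : σ none ≠ none → s) (b : B n X) : pat s n X (act n σ X b) = pat s n X b := by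
  funext i j
  unfold pat
  rw [decide_eq_decide]
  refine and_congr_right fun hi => and_congr_right fun hj => ?_
  have key : ∀ i : Option (Lf X), (i = none → ¬ s) → ex n X (act n σ X b) i = σ (ex n X b i) := by
    intro i hi
    cases i with
    | none =>
      have hs := hi rfl
      have : σ none = none := by
        by_contra hne
        exact hs (hσ hne)
      exact this.symm
    | some l => exact lf_act n σ X b l
  rw [key i hi, key j hj, σ.injective.eq_iff]

lemma pat_eq (s : Prop) (n : ℕ) (X : Obj) (b b' : B n X) (h : pat s n X b = pat s n X b') :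
    ∃ σ : Equiv.Perm (Option (Fin n)), (σ none ≠ none → s) ∧ act n σ X b = b' := by
  have h' : ∀ i j : Option (Lf X), (i = none → ¬ s) → (j = none → ¬ s) →
      (ex n X b i = ex n X b j ↔ ex n X b' i = ex n X b' j) := by
    intro i j hi hj
    have := congrFun (congrFun h i) j
    unfold pat at this
    rw [decide_eq_decide] at this
    constructor
    · intro h1
      exact (this.1 ⟨hi, hj, h1⟩).2.2
    · intro h1
      exact (this.2 ⟨hi, hj, h1⟩).2.2
  obtain ⟨σ, hσ⟩ := exists_perm (J := {i : Option (Lf X) // i = none → ¬ s})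
    (fun i => ex n X b i.1) (fun i => ex n X b' i.1) (fun i j => h' i.1 j.1 i.2 j.2)
  refine ⟨σ, fun hne => ?_, ?_⟩
  · by_contra hs
    exact hne (hσ ⟨none, fun _ => hs⟩)
  · refine lf_inj n X _ _ fun l => ?_
    rw [lf_act]
    exact hσ ⟨some l, fun h => by simp at h⟩

/-- The weights (outside `none` if `s` is false) vanish. -/
def Zw (s : Prop) (n : ℕ) (X : Obj) (b : B n X) : Prop := ∀ i, (i = none → s) → wt n X b i = 0

lemma Zw_act (s : Prop) (n : ℕ) (X : Obj) (σ : Equiv.Perm (Option (Fin n)))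
    (hσ : σ none ≠ none → s) (b : B n X) : Zw s n X (act n σ X b) ↔ Zw s n X b := by
  constructor
  · intro h i hi
    rw [← wt_act n σ X b i]
    refine h (σ i) fun h0 => ?_
    by_cases hi' : i = none
    · exact hi hi'
    · refine hσ fun h1 => hi' (σ.injective (h0.trans h1.symm))
  · intro h i hi
    obtain ⟨j, rfl⟩ := σ.surjective i
    rw [wt_act]
    refine h j fun h0 => ?_
    subst h0
    by_cases h1 : σ none = none
    · exact hi h1
    · exact hσ h1

open scoped Classical in
/-- The indicator vector of a pattern. -/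
noncomputable def uM (s : Prop) (n : ℕ) (X : Obj) (p : Pt X) : Matrix (B n .unit) (B n X) ℝ :=
  fun _ b => if pat s n X b = p ∧ Zw s n X b then 1 else 0

/-- The number of basis vectors of a pattern. -/
noncomputable def nM (s : Prop) (n : ℕ) (X : Obj) (p : Pt X) : ℝ := ∑ b, uM s n X p () b

/-- The normalized indicator covector of a pattern. -/
noncomputable def vM (s : Prop) (n : ℕ) (X : Obj) (p : Pt X) : Matrix (B n X) (B n .unit) ℝ :=
  fun b _ => uM s n X p () b / nM s n X p

lemma uM_apply (s : Prop) (n : ℕ) (X : Obj) (p : Pt X) (a) (b : B n X)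
    [Decidable (pat s n X b = p ∧ Zw s n X b)] :
    uM s n X p a b = if pat s n X b = p ∧ Zw s n X b then 1 else 0 := by
  unfold uM
  congr

lemma uM_act (s : Prop) (n : ℕ) (X : Obj) (p : Pt X) (σ : Equiv.Perm (Option (Fin n)))
    (hσ : σ none ≠ none → s) (a a') (b : B n X) :
    uM s n X p a (act n σ X b) = uM s n X p a' b := by
  classical
  rw [uM_apply, uM_apply]
  refine if_congr ?_ rfl rfl
  rw [pat_act s n X σ hσ, Zw_act s n X σ hσ]

lemma uM_mem (s : Prop) (n : ℕ) (X : Obj) (p : Pt X) : uM s n X p ∈ H s n .unit X := by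
  classical
  refine ⟨fun a b h i hi => ?_, fun σ hσ a b => uM_act s n X p σ hσ _ _ b⟩
  rw [uM_apply] at h
  have hb : pat s n X b = p ∧ Zw s n X b := by
    by_contra hne
    exact h (if_neg hne)
  exact (hb.2 i hi).symm

lemma vM_mem (s : Prop) (n : ℕ) (X : Obj) (p : Pt X) : vM s n X p ∈ H s n X .unit := by
  classical
  refine ⟨fun b a h i hi => ?_, fun σ hσ b a => ?_⟩
  · have h' : uM s n X p () b ≠ 0 := fun h0 => h (by
      change uM s n X p () b / nM s n X p = 0
      rw [h0, zero_div])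
    rw [uM_apply] at h'
    have hb : pat s n X b = p ∧ Zw s n X b := by
      by_contra hne
      exact h' (if_neg hne)
    exact hb.2 i hi
  · change uM s n X p () (act n σ X b) / nM s n X p = uM s n X p () b / nM s n X p
    rw [uM_act s n X p σ hσ () () b]

lemma uM_nonneg (s : Prop) (n : ℕ) (X : Obj) (p : Pt X) (a) (b : B n X) : 0 ≤ uM s n X p a b := by
  classical
  rw [uM_apply]
  split_ifs
  · exact zero_le_one
  · exact le_rfl

lemma nM_pos (s : Prop) (n : ℕ) (X : Obj) (b : B n X) (hb : Zw s n X b) :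
    0 < nM s n X (pat s n X b) := by
  classical
  refine lt_of_lt_of_le ?_ (Finset.single_le_sum (f := fun b' => uM s n X (pat s n X b) () b')
    (fun b' _ => uM_nonneg _ _ _ _ _ _) (Finset.mem_univ b))
  rw [uM_apply, if_pos ⟨rfl, hb⟩]
  exact zero_lt_one

lemma dual_left (s : Prop) (n : ℕ) (X : Obj) (x : Matrix (B n .unit) (B n X) ℝ)
    (hx : x ∈ H s n .unit X) : x = ∑ p, (x * vM s n X p) * uM s n X p := by
  classical
  ext a b
  rw [Matrix.sum_apply]
  have h1 : ∀ p, ((x * vM s n X p) * uM s n X p) a b =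
      (∑ b', x () b' * (uM s n X p () b' / nM s n X p)) * uM s n X p () b := by
    intro p
    rw [Matrix.mul_apply, sum_unitB, Matrix.mul_apply]
    rfl
  rw [Finset.sum_congr rfl fun p _ => h1 p]
  by_cases hb : Zw s n X b
  · rw [Finset.sum_eq_single (pat s n X b)]
    · rw [uM_apply, if_pos ⟨rfl, hb⟩, mul_one]
      have h2 : ∀ b', x () b' * (uM s n X (pat s n X b) () b' / nM s n X (pat s n X b)) =
          x () b * (uM s n X (pat s n X b) () b' / nM s n X (pat s n X b)) := by
        intro b'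
        by_cases hb' : pat s n X b' = pat s n X b ∧ Zw s n X b'
        · obtain ⟨σ, hσ, hσb⟩ := pat_eq s n X b b' hb'.1.symm
          have h3 : x () b' = x () b := by
            rw [← hσb]
            exact hx.2 σ hσ () b
          rw [h3]
        · rw [uM_apply, if_neg hb', zero_div, mul_zero, mul_zero]
      rw [Finset.sum_congr rfl fun b' _ => h2 b', ← Finset.mul_sum, ← Finset.sum_div]
      change x a b = x () b * (nM s n X (pat s n X b) / nM s n X (pat s n X b))
      rw [div_self (nM_pos s n X b hb).ne', mul_one]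
      rfl
    · intro p _ hp
      rw [uM_apply s n X p () b, if_neg (fun h => hp h.1.symm), mul_zero]
    · intro h; exact absurd (Finset.mem_univ _) h
  · rw [Finset.sum_eq_zero]
    · by_contra hne
      exact hb fun i hi => (hx.1 a b hne i hi).symm
    · intro p _
      rw [uM_apply s n X p () b, if_neg (fun h => hb h.2), mul_zero]

lemma dual_right (s : Prop) (n : ℕ) (X : Obj) (y : Matrix (B n X) (B n .unit) ℝ)
    (hy : y ∈ H s n X .unit) : y = ∑ p, vM s n X p * (uM s n X p * y) := by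
  classical
  ext b a
  rw [Matrix.sum_apply]
  have h1 : ∀ p, (vM s n X p * (uM s n X p * y)) b a =
      (uM s n X p () b / nM s n X p) * (∑ b', uM s n X p () b' * y b' ()) := by
    intro p
    rw [Matrix.mul_apply, sum_unitB, Matrix.mul_apply]
    rfl
  rw [Finset.sum_congr rfl fun p _ => h1 p]
  by_cases hb : Zw s n X b
  · rw [Finset.sum_eq_single (pat s n X b)]
    · rw [uM_apply s n X _ () b, if_pos ⟨rfl, hb⟩]
      have h2 : ∀ b', uM s n X (pat s n X b) () b' * y b' () =
          uM s n X (pat s n X b) () b' * y b () := by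
        intro b'
        by_cases hb' : pat s n X b' = pat s n X b ∧ Zw s n X b'
        · obtain ⟨σ, hσ, hσb⟩ := pat_eq s n X b b' hb'.1.symm
          have h3 : y b' () = y b () := by
            rw [← hσb]
            exact hy.2 σ hσ b ()
          rw [h3]
        · rw [uM_apply, if_neg hb', zero_mul, zero_mul]
      rw [Finset.sum_congr rfl fun b' _ => h2 b', ← Finset.sum_mul]
      change y b a = 1 / nM s n X (pat s n X b) * (nM s n X (pat s n X b) * y b ())
      rw [← mul_assoc, one_div, inv_mul_cancel₀ (nM_pos s n X b hb).ne', one_mul]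
      rfl
    · intro p _ hp
      rw [uM_apply s n X p () b, if_neg (fun h => hp h.1.symm), zero_div, zero_mul]
    · intro h; exact absurd (Finset.mem_univ _) h
  · rw [Finset.sum_eq_zero]
    · by_contra hne
      exact hb fun i hi => hy.1 b a hne i hi
    · intro p _
      rw [uM_apply s n X p () b, if_neg (fun h => hb h.2), zero_div, zero_mul]

lemma gm_sum {X Y : Obj} {J : Type} (t : Finset J) (F : J → Rw X Y)
    (h : ∀ j n, F j n ∈ H False n X Y) : ∑ j ∈ t, (gm (F j) (h j) : X ⟶ Y) =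
      gm (fun n => ∑ j ∈ t, F j n) (fun n => Submodule.sum_mem _ fun j _ => h j n) := by
  classical
  induction t using Finset.induction_on with
  | empty => rfl
  | insert j t hj ih =>
    rw [Finset.sum_insert hj, ih]
    refine gm_congr fun n => ?_
    rw [Finset.sum_insert hj]

/-- The dual bases vectors. -/
noncomputable def uH (s : Prop) (X : Obj) (p : Pt X) : 𝟙_ Obj ⟶ X :=
  gm (fun n => uM s n X p) fun n => H_mono (fun h => h.elim) (uM_mem s n X p)

/-- The dual bases covectors. -/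
noncomputable def vH (s : Prop) (X : Obj) (p : Pt X) : X ⟶ 𝟙_ Obj :=
  gm (fun n => vM s n X p) fun n => H_mono (fun h => h.elim) (vM_mem s n X p)

lemma dual_left_gm (s : Prop) (X : Obj) (F : Rw .unit X) (h : ∀ n, F n ∈ H s n .unit X)
    (h' : ∀ n, F n ∈ H False n .unit X) :
    (gm F h' : 𝟙_ Obj ⟶ X) = ∑ p, ((gm F h' : 𝟙_ Obj ⟶ X) ≫ vH s X p) ≫ uH s X p := by
  refine Eq.trans ?_ (gm_sum Finset.univ (fun p n => (F n * vM s n X p) * uM s n X p)
    (fun p n => mul_mem (mul_mem (h' n) (H_mono (fun h => h.elim) (vM_mem s n X p)))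
      (H_mono (fun h => h.elim) (uM_mem s n X p)))).symm
  exact gm_congr fun n => dual_left s n X (F n) (h n)

lemma dual_right_gm (s : Prop) (X : Obj) (F : Rw X .unit) (h : ∀ n, F n ∈ H s n X .unit)
    (h' : ∀ n, F n ∈ H False n X .unit) :
    (gm F h' : X ⟶ 𝟙_ Obj) = ∑ p, vH s X p ≫ (uH s X p ≫ (gm F h' : X ⟶ 𝟙_ Obj)) := by
  refine Eq.trans ?_ (gm_sum Finset.univ (fun p n => vM s n X p * (uM s n X p * F n))
    (fun p n => mul_mem (H_mono (fun h => h.elim) (vM_mem s n X p))
      (mul_mem (H_mono (fun h => h.elim) (uM_mem s n X p)) (h' n)))).symm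
  exact gm_congr fun n => dual_right s n X (F n) (h n)

lemma one_ne_zero_C2 : 𝟙 (𝟙_ Obj) ≠ 0 := by
  intro h
  have h' : idn .unit = gm (fun _ => 0) (fun _ => Submodule.zero_mem _) := h
  obtain ⟨n, hn⟩ := (gm_eq.1 h').exists
  have h1 : (1 : Matrix (B n .unit) (B n .unit) ℝ) () () = 1 := Matrix.one_apply_eq _
  have h2 : (1 : Matrix (B n .unit) (B n .unit) ℝ) () () = 0 := congrFun (congrFun hn ()) ()
  exact one_ne_zero (h1.symm.trans h2)

lemma end_one_C2 (c : 𝟙_ Obj ⟶ 𝟙_ Obj) : ∃ a : Hyperreal, c = a • 𝟙 (𝟙_ Obj) := by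
  obtain ⟨F, h, rfl⟩ := gm_surj c
  refine ⟨hr fun n => F n () (), gm_congr fun n => ?_⟩
  ext a b
  have h1 : (1 : Matrix (B n .unit) (B n .unit) ℝ) () () = 1 := Matrix.one_apply_eq _
  exact ((congrArg (fun z => F n () () * z) h1).trans (mul_one _)).symm

/-- Dual bases for `C2`. -/
theorem perfPair : PerfPair Hyperreal Obj where
  one_ne := one_ne_zero_C2
  end_one := end_one_C2
  basis X := by
    refine ⟨Fintype.card (Pt X), fun i => uH False X ((Fintype.equivFin (Pt X)).symm i),
      fun i => vH False X ((Fintype.equivFin (Pt X)).symm i), fun x => ?_, fun y => ?_⟩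
    · obtain ⟨F, h, rfl⟩ := gm_surj x
      rw [Equiv.sum_comp (Fintype.equivFin (Pt X)).symm
        (fun p => ((gm F h : 𝟙_ Obj ⟶ X) ≫ vH False X p) ≫ uH False X p)]
      exact dual_left_gm False X F h h
    · obtain ⟨F, h, rfl⟩ := gm_surj y
      rw [Equiv.sum_comp (Fintype.equivFin (Pt X)).symm
        (fun p => vH False X p ≫ (uH False X p ≫ (gm F h : X ⟶ 𝟙_ Obj)))]
      exact dual_right_gm False X F h h

/-- Dual bases for `C0`. -/
theorem dual_C0 (X : Obj) : ∃ (r : ℕ) (u : Fin r → (𝟙_ Obj ⟶ X)) (v : Fin r → (X ⟶ 𝟙_ Obj)),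
    (∀ i, u i ∈ C0.S _ _) ∧ (∀ i, v i ∈ C0.S _ _) ∧
    (∀ x ∈ C0.S (𝟙_ Obj) X, x = ∑ i, (x ≫ v i) ≫ u i) ∧
    (∀ y ∈ C0.S X (𝟙_ Obj), y = ∑ i, v i ≫ (u i ≫ y)) := by
  refine ⟨Fintype.card (Pt X), fun i => uH True X ((Fintype.equivFin (Pt X)).symm i),
    fun i => vH True X ((Fintype.equivFin (Pt X)).symm i),
    fun i => ⟨_, fun n => uM_mem True n X _, rfl⟩, fun i => ⟨_, fun n => vM_mem True n X _, rfl⟩,
    fun x hx => ?_, fun y hy => ?_⟩
  · obtain ⟨F, h, rfl⟩ := hx
    rw [Equiv.sum_comp (Fintype.equivFin (Pt X)).symm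
      (fun p => ((gm F (fun n => H_mono (fun h => h.elim) (h n)) : 𝟙_ Obj ⟶ X) ≫ vH True X p) ≫
        uH True X p)]
    exact dual_left_gm True X F h _
  · obtain ⟨F, h, rfl⟩ := hy
    rw [Equiv.sum_comp (Fintype.equivFin (Pt X)).symm
      (fun p => vH True X p ≫ (uH True X p ≫
        (gm F (fun n => H_mono (fun h => h.elim) (h n)) : X ⟶ 𝟙_ Obj)))]
    exact dual_right_gm True X F h _

lemma C0_smul_mem {X Y : Obj} (c : Hyperreal) {f : X ⟶ Y} (hf : f ∈ C0.S X Y) :
    c • f ∈ C0.S X Y := C0S_smul c hf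

instance : MonoidalLinear Hyperreal Obj where
  whiskerLeft_smul := by
    intro X Y Z c f
    obtain ⟨F, h, rfl⟩ := gm_surj f
    obtain ⟨c, rfl⟩ := hr_surj c
    exact gm_congr fun n => by ext a b; exact mul_left_comm _ _ _
  smul_whiskerRight := by
    intro c Y Z f X
    obtain ⟨F, h, rfl⟩ := gm_surj f
    obtain ⟨c, rfl⟩ := hr_surj c
    exact gm_congr fun n => by ext a b; exact mul_assoc _ _ _

/-- The basis vector with all indices equal to `none`. -/
def nn (n : ℕ) : ∀ X : Obj, B n X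
  | .unit => ()
  | .gen _ => none
  | .tens X Y => (nn n X, nn n Y)

/-- Morphisms with nonnegative entries and positive entry at `none`. -/
def Pos {X Y : Obj} (f : X ⟶ Y) : Prop :=
  ∃ (F : Rw X Y) (h : ∀ n, F n ∈ H False n X Y), f = gm F h ∧ (∀ n a b, 0 ≤ F n a b) ∧
    ∀ n, 0 < F n (nn n X) (nn n Y)

lemma Pos.ne_zero {X Y : Obj} {f : X ⟶ Y} (hf : Pos f) : f ≠ 0 := by
  obtain ⟨F, h, rfl, _, h2⟩ := hf
  intro h0
  have h' : gm F h = gm (fun _ => 0) (fun _ => Submodule.zero_mem _) := h0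
  obtain ⟨n, hn⟩ := (gm_eq.1 h').exists
  have := h2 n
  rw [hn] at this
  exact lt_irrefl _ this

lemma Pos.comp {X Y Z : Obj} {f : X ⟶ Y} {g : Y ⟶ Z} (hf : Pos f) (hg : Pos g) :
    Pos (f ≫ g) := by
  obtain ⟨F, h, rfl, h1, h2⟩ := hf
  obtain ⟨F', h', rfl, h1', h2'⟩ := hg
  refine ⟨fun n => F n * F' n, fun n => mul_mem (h n) (h' n), rfl, fun n a b => ?_, fun n => ?_⟩
  · change 0 ≤ (F n * F' n) a b
    rw [Matrix.mul_apply]
    exact Finset.sum_nonneg fun c _ => mul_nonneg (h1 n _ _) (h1' n _ _)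
  · change 0 < (F n * F' n) (nn n X) (nn n Z)
    rw [Matrix.mul_apply]
    exact lt_of_lt_of_le (mul_pos (h2 n) (h2' n)) (Finset.single_le_sum
      (f := fun c => F n (nn n X) c * F' n c (nn n Z))
      (fun c _ => mul_nonneg (h1 n _ _) (h1' n _ _)) (Finset.mem_univ (nn n Y)))

lemma Pos.tensor {X Y X' Y' : Obj} {f : X ⟶ Y} {g : X' ⟶ Y'} (hf : Pos f) (hg : Pos g) :
    Pos (f ⊗ₘ g) := by
  obtain ⟨F, h, rfl, h1, h2⟩ := hf
  obtain ⟨F', h', rfl, h1', h2'⟩ := hg
  exact ⟨fun n => kr (F n) (F' n), fun n => kr_mem (h n) (h' n), rfl,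
    fun n a b => mul_nonneg (h1 n _ _) (h1' n _ _), fun n => mul_pos (h2 n) (h2' n)⟩

lemma Pos.hm {X Y : Obj} (p : PE X Y) (hp : ∀ n, p.e n (nn n X) = nn n Y) : Pos (p.hm : X ⟶ Y) := by
  refine ⟨_, fun n => pm_mem _ (p.wt_eq n) (p.act_eq n), rfl, fun n a b => ?_, fun n => ?_⟩
  · rw [pm_apply]
    split_ifs
    · exact zero_le_one
    · exact le_rfl
  · rw [pm_apply, if_pos (hp n)]
    exact zero_lt_one

lemma Pos.id (X : Obj) : Pos (𝟙 X) := by
  rw [← PE.hm_rfl]
  exact Pos.hm _ fun _ => rfl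

lemma Pos.whiskerLeft (X : Obj) {Y Z : Obj} {f : Y ⟶ Z} (hf : Pos f) : Pos (X ◁ f) :=
  Pos.tensor (Pos.id X) hf

lemma Pos.whiskerRight {Y Z : Obj} {f : Y ⟶ Z} (hf : Pos f) (X : Obj) : Pos (f ▷ X) :=
  Pos.tensor hf (Pos.id X)

lemma Pos.assoc_hom (X Y Z : Obj) : Pos (α_ X Y Z).hom := Pos.hm (PE.asc X Y Z) fun _ => rfl

lemma Pos.assoc_inv (X Y Z : Obj) : Pos (α_ X Y Z).inv := Pos.hm (PE.asc X Y Z).inv' fun _ => rfl

lemma Pos.left_hom (X : Obj) : Pos (λ_ X).hom := Pos.hm (PE.lun X) fun _ => rfl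

lemma Pos.left_inv (X : Obj) : Pos (λ_ X).inv := Pos.hm (PE.lun X).inv' fun _ => rfl

lemma Pos.right_hom (X : Obj) : Pos (ρ_ X).hom := Pos.hm (PE.run X) fun _ => rfl

lemma Pos.right_inv (X : Obj) : Pos (ρ_ X).inv := Pos.hm (PE.run X).inv' fun _ => rfl

lemma Pos.braid (X Y : Obj) : Pos (β_ X Y).hom := Pos.hm (PE.brd X Y) fun _ => rfl

/-- The matrix of the basis vector `none`. -/
def noneM (n : ℕ) : Matrix (B n .unit) (B n (.gen 1)) ℝ :=
  fun _ b => if (b : Option (Fin n)) = none then 1 else 0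

lemma noneM_mem (n : ℕ) : noneM n ∈ H False n .unit (.gen 1) := by
  refine ⟨fun a b h i hi => ?_, fun σ hσ a b => ?_⟩
  · have hb : (b : Option (Fin n)) = none := by
      by_contra hne
      exact h (if_neg hne)
    change (0 : ℤ) = (Pi.single (M := fun _ => ℤ) b 1 : Option (Fin n) → ℤ) i
    rw [Pi.single_eq_of_ne]
    intro h0
    exact hi (h0.trans hb)
  · have hσ' : σ none = none := by
      by_contra hne
      exact hσ hne
    change (if σ b = none then (1 : ℝ) else 0) = if (b : Option (Fin n)) = none then 1 else 0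
    refine if_congr ?_ rfl rfl
    constructor
    · intro h
      exact σ.injective (h.trans hσ'.symm)
    · intro h
      exact (congrArg σ h).trans hσ'

/-- The morphism `𝟙 ⟶ gen 1` of weight one. -/
noncomputable def fH : 𝟙_ Obj ⟶ Obj.gen 1 := gm (fun n => noneM n) noneM_mem

lemma fH_w : pinch.w 1 fH = fH := by
  refine gm_congr fun n => ?_
  ext a b
  change wp n (X := .unit) (Y := .gen 1) 1 (noneM n) a b = noneM n a b
  rw [wp_apply]
  split_ifs with h
  · rfl
  · symm
    refine if_neg fun hb => h ?_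
    change (Pi.single (M := fun _ => ℤ) b 1 : Option (Fin n) → ℤ) none - 0 = 1
    rw [sub_zero]
    have : b = (none : Option (Fin n)) := hb
    subst this
    exact Pi.single_eq_same _ _

lemma fH_pos : Pos fH :=
  ⟨_, noneM_mem, rfl, fun n a b => by
    change (0 : ℝ) ≤ if (b : Option (Fin n)) = none then 1 else 0
    split_ifs
    · exact zero_le_one
    · exact le_rfl, fun n => by
    change (0 : ℝ) < if (none : Option (Fin n)) = none then 1 else 0
    rw [if_pos rfl]
    exact zero_lt_one⟩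

end Pool.Agent.H55.TT
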