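import Pool.Agent.H55.TT.Level

/-!
The ultraproduct of the level categories: a symmetric monoidal category, linear over the
hyperreals.
-/

open CategoryTheory MonoidalCategory Filter

namespace Pool.Agent.H55.TT

/-- Sequences of invariant matrices. -/
abbrev Sq (X Y : Obj) : Type := ∀ n : ℕ, H False n X Y

/-- The sequences which are eventually zero. -/
def Ev (X Y : Obj) : AddSubgroup (Sq X Y) where
  carrier := {F | ∀ᶠ n in (hyperfilter ℕ : Filter ℕ), F n = 0}
  zero_mem' := Eventually.of_forall fun _ => rfl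
  add_mem' := by
    intro F G hF hG
    refine (hF.and hG).mono fun n hn => ?_
    rw [Pi.add_apply, hn.1, hn.2, add_zero]
  neg_mem' := by
    intro F hF
    refine hF.mono fun n hn => ?_
    rw [Pi.neg_apply, hn, neg_zero]

/-- Germs of sequences of invariant matrices. -/
def Hm (X Y : Obj) : Type := Sq X Y ⧸ Ev X Y

noncomputable instance (X Y : Obj) : AddCommGroup (Hm X Y) :=
  inferInstanceAs (AddCommGroup (Sq X Y ⧸ Ev X Y))

/-- Sequences of matrices. -/
abbrev Rw (X Y : Obj) : Type := ∀ n : ℕ, Matrix (B n X) (B n Y) ℝ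

/-- The germ of a sequence of invariant matrices. -/
def gm {X Y : Obj} (F : Rw X Y) (hF : ∀ n, F n ∈ H False n X Y) : Hm X Y :=
  QuotientAddGroup.mk (s := Ev X Y) fun n => ⟨F n, hF n⟩

lemma gm_eq {X Y : Obj} {F G : Rw X Y} {hF : ∀ n, F n ∈ H False n X Y}
    {hG : ∀ n, G n ∈ H False n X Y} :
    gm F hF = gm G hG ↔ ∀ᶠ n in (hyperfilter ℕ : Filter ℕ), F n = G n := by
  refine QuotientAddGroup.eq.trans ?_
  change (∀ᶠ n in (hyperfilter ℕ : Filter ℕ), (-(⟨F n, hF n⟩ : H False n X Y) + ⟨G n, hG n⟩) = 0) ↔ _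
  refine ⟨fun h => h.mono fun n hn => ?_, fun h => h.mono fun n hn => ?_⟩
  · have := congrArg Subtype.val (neg_add_eq_zero.1 hn)
    exact this
  · rw [neg_add_eq_zero]
    exact Subtype.ext hn

lemma gm_congr {X Y : Obj} {F G : Rw X Y} {hF : ∀ n, F n ∈ H False n X Y}
    {hG : ∀ n, G n ∈ H False n X Y} (h : ∀ n, F n = G n) : gm F hF = gm G hG :=
  gm_eq.2 (Eventually.of_forall h)

lemma gm_surj {X Y : Obj} (f : Hm X Y) : ∃ F hF, f = gm F hF := by
  obtain ⟨F, rfl⟩ := QuotientAddGroup.mk_surjective f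
  exact ⟨fun n => (F n).1, fun n => (F n).2, rfl⟩

lemma gm_add {X Y : Obj} (F G : Rw X Y) (hF : ∀ n, F n ∈ H False n X Y)
    (hG : ∀ n, G n ∈ H False n X Y) :
    gm F hF + gm G hG = gm (fun n => F n + G n) (fun n => Submodule.add_mem _ (hF n) (hG n)) := rfl

lemma gm_neg {X Y : Obj} (F : Rw X Y) (hF : ∀ n, F n ∈ H False n X Y) :
    - gm F hF = gm (fun n => - F n) (fun n => Submodule.neg_mem _ (hF n)) := rfl

lemma gm_zero {X Y : Obj} :
    (0 : Hm X Y) = gm (fun _ => 0) (fun _ => Submodule.zero_mem _) := rfl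

/-- Composition. -/
def cmp {X Y Z : Obj} (f : Hm X Y) (g : Hm Y Z) : Hm X Z :=
  Quotient.liftOn₂' f g (fun F G => gm (fun n => (F n).1 * (G n).1)
    (fun n => mul_mem (F n).2 (G n).2)) (by
    intro F G F' G' h1 h2
    have h1' := gm_eq (hF := fun n => (F n).2) (hG := fun n => (F' n).2) |>.1
      (Quotient.sound' h1)
    have h2' := gm_eq (hF := fun n => (G n).2) (hG := fun n => (G' n).2) |>.1
      (Quotient.sound' h2)
    refine gm_eq.2 ((h1'.and h2').mono fun n hn => ?_)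
    rw [hn.1, hn.2])

lemma cmp_gm {X Y Z : Obj} (F : Rw X Y) (G : Rw Y Z) (hF : ∀ n, F n ∈ H False n X Y)
    (hG : ∀ n, G n ∈ H False n Y Z) :
    cmp (gm F hF) (gm G hG) = gm (fun n => F n * G n) (fun n => mul_mem (hF n) (hG n)) := rfl

/-- Tensor product of morphisms. -/
def tns {X Y X' Y' : Obj} (f : Hm X Y) (g : Hm X' Y') : Hm (.tens X X') (.tens Y Y') :=
  Quotient.liftOn₂' f g (fun F G => gm (fun n => kr (F n).1 (G n).1)
    (fun n => kr_mem (F n).2 (G n).2)) (by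
    intro F G F' G' h1 h2
    have h1' := gm_eq (hF := fun n => (F n).2) (hG := fun n => (F' n).2) |>.1
      (Quotient.sound' h1)
    have h2' := gm_eq (hF := fun n => (G n).2) (hG := fun n => (G' n).2) |>.1
      (Quotient.sound' h2)
    refine gm_eq.2 ((h1'.and h2').mono fun n hn => ?_)
    rw [hn.1, hn.2])

lemma tns_gm {X Y X' Y' : Obj} (F : Rw X Y) (G : Rw X' Y') (hF : ∀ n, F n ∈ H False n X Y)
    (hG : ∀ n, G n ∈ H False n X' Y') :
    tns (gm F hF) (gm G hG) = gm (fun n => kr (F n) (G n)) (fun n => kr_mem (hF n) (hG n)) := rfl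

/-- Scalar multiplication by hyperreals. -/
noncomputable def sml {X Y : Obj} (c : Hyperreal) (f : Hm X Y) : Hm X Y :=
  Quotient.liftOn₂' c f (fun c F => gm (fun n => c n • (F n).1)
    (fun n => Submodule.smul_mem _ _ (F n).2)) (by
    intro c F c' F' h1 h2
    have h1' : ∀ᶠ n in (hyperfilter ℕ : Filter ℕ), c n = c' n := h1
    have h2' := gm_eq (hF := fun n => (F n).2) (hG := fun n => (F' n).2) |>.1
      (Quotient.sound' h2)
    refine gm_eq.2 ((h1'.and h2').mono fun n hn => ?_)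
    rw [hn.1, hn.2])

/-- The hyperreal number given by a sequence. -/
noncomputable def hr (c : ℕ → ℝ) : Hyperreal := ((c : ℕ → ℝ) : Germ (hyperfilter ℕ : Filter ℕ) ℝ)

lemma hr_surj (c : Hyperreal) : ∃ a : ℕ → ℝ, c = hr a := by
  induction c using Germ.inductionOn with
  | _ f => exact ⟨f, rfl⟩

lemma sml_gm {X Y : Obj} (c : ℕ → ℝ) (F : Rw X Y) (hF : ∀ n, F n ∈ H False n X Y) :
    sml (hr c) (gm F hF) = gm (fun n => c n • F n) (fun n => Submodule.smul_mem _ _ (hF n)) := rfl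

noncomputable instance (X Y : Obj) : Module Hyperreal (Hm X Y) where
  smul := sml
  one_smul f := by
    obtain ⟨F, hF, rfl⟩ := gm_surj f
    exact gm_congr fun n => one_smul ℝ (F n)
  mul_smul c d f := by
    obtain ⟨F, hF, rfl⟩ := gm_surj f
    obtain ⟨c, rfl⟩ := hr_surj c
    obtain ⟨d, rfl⟩ := hr_surj d
    exact gm_congr fun n => mul_smul (c n) (d n) (F n)
  smul_zero c := by
    obtain ⟨c, rfl⟩ := hr_surj c
    exact gm_congr fun n => smul_zero (c n)
  smul_add c f g := by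
    obtain ⟨F, hF, rfl⟩ := gm_surj f
    obtain ⟨G, hG, rfl⟩ := gm_surj g
    obtain ⟨c, rfl⟩ := hr_surj c
    exact gm_congr fun n => smul_add (c n) (F n) (G n)
  add_smul c d f := by
    obtain ⟨F, hF, rfl⟩ := gm_surj f
    obtain ⟨c, rfl⟩ := hr_surj c
    obtain ⟨d, rfl⟩ := hr_surj d
    exact gm_congr fun n => add_smul (c n) (d n) (F n)
  zero_smul f := by
    obtain ⟨F, hF, rfl⟩ := gm_surj f
    exact gm_congr fun n => zero_smul ℝ (F n)

lemma smul_gm {X Y : Obj} (c : ℕ → ℝ) (F : Rw X Y) (hF : ∀ n, F n ∈ H False n X Y) :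
    (hr c) • (gm F hF) = gm (fun n => c n • F n) (fun n => Submodule.smul_mem _ _ (hF n)) := rfl

/-- The identity. -/
def idn (X : Obj) : Hm X X := gm (fun _ => 1) (fun n => by
  rw [← pm_refl]
  exact pm_mem _ (fun _ => rfl) (fun _ _ => rfl))

noncomputable instance : Category.{0} Obj where
  Hom := Hm
  id := idn
  comp := cmp
  id_comp f := by
    obtain ⟨F, hF, rfl⟩ := gm_surj f
    exact gm_congr fun n => Matrix.one_mul (F n)
  comp_id f := by
    obtain ⟨F, hF, rfl⟩ := gm_surj f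
    exact gm_congr fun n => Matrix.mul_one (F n)
  assoc f g h := by
    obtain ⟨F, hF, rfl⟩ := gm_surj f
    obtain ⟨G, hG, rfl⟩ := gm_surj g
    obtain ⟨H, hH, rfl⟩ := gm_surj h
    exact gm_congr fun n => Matrix.mul_assoc (F n) (G n) (H n)

noncomputable instance : Preadditive Obj where
  homGroup X Y := inferInstanceAs (AddCommGroup (Hm X Y))
  add_comp X Y Z f f' g := by
    obtain ⟨F, hF, rfl⟩ := gm_surj f
    obtain ⟨F', hF', rfl⟩ := gm_surj f'
    obtain ⟨G, hG, rfl⟩ := gm_surj g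
    exact gm_congr fun n => Matrix.add_mul (F n) (F' n) (G n)
  comp_add X Y Z f g g' := by
    obtain ⟨F, hF, rfl⟩ := gm_surj f
    obtain ⟨G, hG, rfl⟩ := gm_surj g
    obtain ⟨G', hG', rfl⟩ := gm_surj g'
    exact gm_congr fun n => Matrix.mul_add (F n) (G n) (G' n)

noncomputable instance : Linear Hyperreal Obj where
  homModule X Y := inferInstanceAs (Module Hyperreal (Hm X Y))
  smul_comp X Y Z c f g := by
    obtain ⟨F, hF, rfl⟩ := gm_surj f
    obtain ⟨G, hG, rfl⟩ := gm_surj g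
    obtain ⟨c, rfl⟩ := hr_surj c
    exact gm_congr fun n => Matrix.smul_mul (c n) (F n) (G n)
  comp_smul X Y Z f c g := by
    obtain ⟨F, hF, rfl⟩ := gm_surj f
    obtain ⟨G, hG, rfl⟩ := gm_surj g
    obtain ⟨c, rfl⟩ := hr_surj c
    exact gm_congr fun n => Matrix.mul_smul (F n) (c n) (G n)

/-- Bijections of the bases compatible with weights and permutations. -/
@[ext]
structure PE (X Y : Obj) where
  e : ∀ n, B n X ≃ B n Y
  wt_eq : ∀ n a, wt n Y (e n a) = wt n X a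
  act_eq : ∀ n (σ : Equiv.Perm (Option (Fin n))) (a), e n (act n σ X a) = act n σ Y (e n a)

namespace PE

/-- The identity bijection. -/
def rfl' (X : Obj) : PE X X := ⟨fun n => Equiv.refl (B n X), fun _ _ => rfl, fun _ _ _ => rfl⟩

/-- The inverse bijection. -/
def inv' {X Y : Obj} (p : PE X Y) : PE Y X :=
  ⟨fun n => (p.e n).symm, fun n a => by rw [← p.wt_eq, Equiv.apply_symm_apply],
    fun n σ a => by rw [Equiv.symm_apply_eq, p.act_eq, Equiv.apply_symm_apply]⟩

/-- Composition of bijections. -/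
def trn {X Y Z : Obj} (p : PE X Y) (q : PE Y Z) : PE X Z :=
  ⟨fun n => (p.e n).trans (q.e n), fun n a => (q.wt_eq n _).trans (p.wt_eq n a),
    fun n σ a => (congrArg (q.e n) (p.act_eq n σ a)).trans (q.act_eq n σ _)⟩

/-- Product of bijections. -/
def prd {X Y X' Y' : Obj} (p : PE X Y) (q : PE X' Y') : PE (.tens X X') (.tens Y Y') :=
  ⟨fun n => Equiv.prodCongr (p.e n) (q.e n),
    fun n a => congrArg₂ (· + ·) (p.wt_eq n a.1) (q.wt_eq n a.2),
    fun n σ a => Prod.ext (p.act_eq n σ a.1) (q.act_eq n σ a.2)⟩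

/-- The morphism given by a bijection. -/
def hm {X Y : Obj} (p : PE X Y) : X ⟶ Y :=
  gm (fun n => pm (p.e n)) (fun n => pm_mem _ (p.wt_eq n) (p.act_eq n))

lemma hm_trn {X Y Z : Obj} (p : PE X Y) (q : PE Y Z) : (p.trn q).hm = p.hm ≫ q.hm :=
  (gm_congr fun n => pm_trans (p.e n) (q.e n)).symm

lemma cmp_hm {X Y Z : Obj} (p : PE X Y) (q : PE Y Z) : cmp p.hm q.hm = (p.trn q).hm :=
  gm_congr fun n => pm_trans (p.e n) (q.e n)

lemma hm_rfl (X : Obj) : (rfl' X).hm = 𝟙 X := gm_congr fun _ => pm_refl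

lemma hm_prd {X Y X' Y' : Obj} (p : PE X Y) (q : PE X' Y') : (p.prd q).hm = tns p.hm q.hm :=
  (gm_congr fun n => kr_pm (p.e n) (q.e n)).symm

/-- The isomorphism given by a bijection. -/
def iso {X Y : Obj} (p : PE X Y) : X ≅ Y where
  hom := p.hm
  inv := p.inv'.hm
  hom_inv_id := by
    rw [← hm_trn, ← hm_rfl]
    congr 1
    ext n a
    exact (p.e n).symm_apply_apply a
  inv_hom_id := by
    rw [← hm_trn, ← hm_rfl]
    congr 1
    ext n a
    exact (p.e n).apply_symm_apply a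

/-- The associator. -/
def asc (X Y Z : Obj) : PE (.tens (.tens X Y) Z) (.tens X (.tens Y Z)) :=
  ⟨fun n => Equiv.prodAssoc (B n X) (B n Y) (B n Z), fun _ _ => (add_assoc _ _ _).symm,
    fun _ _ _ => rfl⟩

/-- The left unitor. -/
def lun (X : Obj) : PE (.tens .unit X) X :=
  ⟨fun n => Equiv.punitProd (B n X), fun _ _ => (zero_add _).symm, fun _ _ _ => rfl⟩

/-- The right unitor. -/
def run (X : Obj) : PE (.tens X .unit) X :=
  ⟨fun n => Equiv.prodPUnit (B n X), fun _ _ => (add_zero _).symm, fun _ _ _ => rfl⟩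

/-- The braiding. -/
def brd (X Y : Obj) : PE (.tens X Y) (.tens Y X) :=
  ⟨fun n => Equiv.prodComm (B n X) (B n Y), fun _ _ => add_comm _ _, fun _ _ _ => rfl⟩

end PE

lemma tns_comp {X Y Z X' Y' Z' : Obj} (f : X ⟶ Y) (f' : X' ⟶ Y') (g : Y ⟶ Z) (g' : Y' ⟶ Z') :
    cmp (tns f f') (tns g g') = tns (f ≫ g) (f' ≫ g') := by
  obtain ⟨F, hF, rfl⟩ := gm_surj f
  obtain ⟨F', hF', rfl⟩ := gm_surj f'
  obtain ⟨G, hG, rfl⟩ := gm_surj g
  obtain ⟨G', hG', rfl⟩ := gm_surj g'
  exact gm_congr fun n => (kr_mul (F n) (G n) (F' n) (G' n)).symm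

lemma tns_id (X Y : Obj) : tns (𝟙 X) (𝟙 Y) = 𝟙 (Obj.tens X Y) := gm_congr fun _ => kr_one_one

lemma hm_nat {X Y X' Y' : Obj} (p : PE X X') (q : PE Y Y') (F : Rw X Y) (F' : Rw X' Y')
    (hF : ∀ n, F n ∈ H False n X Y) (hF' : ∀ n, F' n ∈ H False n X' Y')
    (h : ∀ n a b, F n a b = F' n (p.e n a) (q.e n b)) :
    cmp (gm F hF) q.hm = cmp p.hm (gm F' hF') := by
  refine gm_congr fun n => ?_
  change F n * pm (q.e n) = pm (p.e n) * F' n
  rw [mul_pm, pm_mul]
  ext a b
  rw [h, Equiv.apply_symm_apply]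

noncomputable instance : MonoidalCategoryStruct Obj where
  tensorObj := Obj.tens
  whiskerLeft X _ _ f := tns (𝟙 X) f
  whiskerRight f Y := tns f (𝟙 Y)
  tensorHom f g := tns f g
  tensorUnit := Obj.unit
  associator X Y Z := (PE.asc X Y Z).iso
  leftUnitor X := (PE.lun X).iso
  rightUnitor X := (PE.run X).iso

noncomputable instance : MonoidalCategory Obj :=
  MonoidalCategory.ofTensorHom
    (id_tensorHom_id := tns_id)
    (id_tensorHom := fun _ _ _ _ => rfl)
    (tensorHom_id := fun _ _ => rfl)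
    (tensorHom_comp_tensorHom := tns_comp)
    (associator_naturality := by
      intro X₁ X₂ X₃ Y₁ Y₂ Y₃ f₁ f₂ f₃
      obtain ⟨F₁, h₁, rfl⟩ := gm_surj f₁
      obtain ⟨F₂, h₂, rfl⟩ := gm_surj f₂
      obtain ⟨F₃, h₃, rfl⟩ := gm_surj f₃
      refine hm_nat (PE.asc X₁ X₂ X₃) (PE.asc Y₁ Y₂ Y₃) _ _ _ _ ?_
      intro n a b
      exact mul_assoc _ _ _)
    (leftUnitor_naturality := by
      intro X Y f
      obtain ⟨F, h, rfl⟩ := gm_surj f
      refine hm_nat (PE.lun X) (PE.lun Y) _ _ _ _ ?_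
      intro n a b
      exact one_mul _)
    (rightUnitor_naturality := by
      intro X Y f
      obtain ⟨F, h, rfl⟩ := gm_surj f
      refine hm_nat (PE.run X) (PE.run Y) _ _ _ _ ?_
      intro n a b
      exact mul_one _)
    (pentagon := by
      intro W X Y Z
      change cmp (tns (PE.asc W X Y).hm (𝟙 Z)) (cmp (PE.asc W (.tens X Y) Z).hm
        (tns (𝟙 W) (PE.asc X Y Z).hm)) = cmp (PE.asc (.tens W X) Y Z).hm
        (PE.asc W X (.tens Y Z)).hm
      rw [← PE.hm_rfl, ← PE.hm_rfl, ← PE.hm_prd, ← PE.hm_prd, PE.cmp_hm, PE.cmp_hm, PE.cmp_hm]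
      rfl)
    (triangle := by
      intro X Y
      change cmp (PE.asc X .unit Y).hm (tns (𝟙 X) (PE.lun Y).hm) = tns (PE.run X).hm (𝟙 Y)
      rw [← PE.hm_rfl, ← PE.hm_rfl, ← PE.hm_prd, ← PE.hm_prd, PE.cmp_hm]
      rfl)

noncomputable instance : SymmetricCategory Obj where
  braiding X Y := (PE.brd X Y).iso
  braiding_naturality_right := by
    intro X Y Z f
    obtain ⟨F, h, rfl⟩ := gm_surj f
    refine hm_nat (PE.brd X Y) (PE.brd X Z) _ _ _ _ ?_
    intro n a b
    exact mul_comm _ _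
  braiding_naturality_left := by
    intro X Y f Z
    obtain ⟨F, h, rfl⟩ := gm_surj f
    refine hm_nat (PE.brd X Z) (PE.brd Y Z) _ _ _ _ ?_
    intro n a b
    exact mul_comm _ _
  hexagon_forward := by
    intro X Y Z
    change cmp (PE.asc X Y Z).hm (cmp (PE.brd X (.tens Y Z)).hm (PE.asc Y Z X).hm) =
      cmp (tns (PE.brd X Y).hm (𝟙 Z)) (cmp (PE.asc Y X Z).hm (tns (𝟙 Y) (PE.brd X Z).hm))
    rw [← PE.hm_rfl, ← PE.hm_rfl, ← PE.hm_prd, ← PE.hm_prd, PE.cmp_hm, PE.cmp_hm, PE.cmp_hm,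
      PE.cmp_hm]
    rfl
  hexagon_reverse := by
    intro X Y Z
    change cmp (PE.asc X Y Z).inv'.hm (cmp (PE.brd (.tens X Y) Z).hm (PE.asc Z X Y).inv'.hm) =
      cmp (tns (𝟙 X) (PE.brd Y Z).hm) (cmp (PE.asc X Z Y).inv'.hm (tns (PE.brd X Z).hm (𝟙 Y)))
    rw [← PE.hm_rfl, ← PE.hm_rfl, ← PE.hm_prd, ← PE.hm_prd, PE.cmp_hm, PE.cmp_hm, PE.cmp_hm,
      PE.cmp_hm]
    rfl
  symmetry := by
    intro X Y
    change cmp (PE.brd X Y).hm (PE.brd Y X).hm = 𝟙 (Obj.tens X Y)
    rw [PE.cmp_hm, ← PE.hm_rfl]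
    rfl

instance : MonoidalPreadditive Obj where
  whiskerLeft_zero := by
    intro X Y Z
    exact gm_congr fun n => by ext a b; exact mul_zero _
  zero_whiskerRight := by
    intro X Y Z
    exact gm_congr fun n => by ext a b; exact zero_mul _
  whiskerLeft_add := by
    intro X Y Z f g
    obtain ⟨F, h, rfl⟩ := gm_surj f
    obtain ⟨G, h', rfl⟩ := gm_surj g
    exact gm_congr fun n => by ext a b; exact mul_add _ _ _
  add_whiskerRight := by
    intro X Y Z f g
    obtain ⟨F, h, rfl⟩ := gm_surj f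
    obtain ⟨G, h', rfl⟩ := gm_surj g
    exact gm_congr fun n => by ext a b; exact add_mul _ _ _

end Pool.Agent.H55.TT
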